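import Pool.Agent.Helper56.NL.Def

/-! Instances of the conjecture on the algebraic independence of logarithms. -/

set_option autoImplicit false

namespace Pool.Agent.Helper35.IL

open Pool.Agent.Helper56.NL Set

/-- The instance `(n, k)` of the conjecture with defect: the transcendence degree of `ℚ(u)` is at least
`n - k` for all rationally independent logarithms `u 1, ..., u n` of algebraic numbers. -/
def LogInst (F : ExpField) (n k : ℕ) : Prop :=
  ∀ u : Fin n → ℂ, (∀ i, IsLog F (u i)) → LinearIndependent ℚ u →
    (n : Cardinal) ≤ Algebra.trdeg ℚ (IntermediateField.adjoin ℚ (range u)) + (k : Cardinal)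

/-- functions with `d 0 = d 1 = 0` which grow in steps of at most one -/
def Adm (d : ℕ → ℕ) : Prop := d 0 = 0 ∧ d 1 = 0 ∧ ∀ n, d n ≤ d (n + 1) ∧ d (n + 1) ≤ d n + 1

/-- the question: rationally independent logarithms of algebraic numbers are algebraically
independent -/
def Question : Prop :=
  ∀ (n : ℕ) (u : Fin n → ℂ), (∀ i, IsAlgebraic ℚ (Complex.exp (u i))) → LinearIndependent ℚ u →
    AlgebraicIndependent ℚ u

end Pool.Agent.Helper35.IL
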