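import Pool.Agent.Helper35.IL.Stm
import Pool.Agent.Helper56.NL.Fin

/-! The field. -/

set_option autoImplicit false

namespace Pool.Agent.Helper35.IL

open Pool.Agent.Helper35.EM Pool.Agent.Helper56.SA Pool.Agent.Helper56.EM Pool.Agent.Helper56.NL
  Pool.Agent.Helper56.HS Module Submodule Set ComplexConjugate

theorem field (hIND : S_IND) (hSCHX : S_SCHX) (hLWS : S_LWS)
    {D : ℕ} {r : ℕ → ℕ} (hrn : ∀ n, r n ≤ n) {S : Set ℂ} {P0 : Submodule ℚ (ℂ × ℂ)}
    (hB : LB D r S P0) {K : IntermediateField ℚ ℂ}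
    (hKcl : ∀ z : ℂ, IsAlgebraic K.toSubfield z → z ∈ K) (hKk : ∀ z ∈ M.closure ∅, z ∈ K)
    (hconjK : ∀ x ∈ K, conj x ∈ K) (hpK : ((Real.pi : ℝ) : ℂ) ∈ K) (E : K → K) (lam : K →ₗ[ℚ] ℂ)
    (hE : ∀ x, (E x : ℂ) = Complex.exp (lam x)) (hsurj : ∀ y, y ≠ 0 → ∃ x, E x = y)
    (hker : ∀ x, E x = 1 ↔ ∃ n : ℤ, (x : ℂ) = n * (2 * Real.pi * Complex.I))
    (hP0 : ∀ q ∈ P0, ∃ x : K, (x : ℂ) = q.1 ∧ lam x = q.2) (hrk : Rk lam S P0)
    (hconj : ∀ x y : K, (y : ℂ) = conj (x : ℂ) → lam y = conj (lam x)) :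
    ∃ F : Pool.Agent.Helper56.NL.ExpField, F.p = Real.pi ∧
      Pool.Agent.Helper56.NL.LindemannWeierstrass F ∧ IndependentInDegree F D ∧
      SchanuelModuloLogs F ∧ ∀ n k, SL F n k ↔ n - r n ≤ k := by
  classical
  let EE : ℂ → ℂ := fun x => if hx : x ∈ K then Complex.exp (lam ⟨x, hx⟩) else 0
  have hEE : ∀ x : K, EE x = Complex.exp (lam x) := fun x => by
    simp only [EE]
    rw [dif_pos x.2]
  have hexpK : ∀ x : K, Complex.exp (lam x) ∈ K := fun x => by rw [← hE]; exact (E x).2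
  let F : Pool.Agent.Helper56.NL.ExpField :=
    { K := K.toSubfield
      E := EE
      p := Real.pi
      closed := hKcl
      conj_mem := hconjK
      E_mem := fun x hx => by
        show EE x ∈ K
        rw [hEE ⟨x, hx⟩]; exact hexpK _
      E_add := fun x hx y hy => by
        have h1 := hEE (⟨x, hx⟩ + ⟨y, hy⟩)
        rw [map_add, Complex.exp_add, ← hEE, ← hEE] at h1
        exact h1
      E_surj := fun y hy hy0 => by
        obtain ⟨x, hx⟩ := hsurj ⟨y, hy⟩ (fun h0 => hy0 (congrArg Subtype.val h0))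
        refine ⟨x, x.2, ?_⟩
        rw [hEE, ← hE, hx]
      E_conj := fun x hx => by
        have h1 := hconj ⟨x, hx⟩ ⟨conj x, hconjK x hx⟩ rfl
        have h2 := hEE ⟨conj x, hconjK x hx⟩
        rw [h1, Complex.exp_conj, ← hEE] at h2
        exact h2
      ker := fun x hx => by
        have h1 := hker ⟨x, hx⟩
        have h2 : EE x = 1 ↔ E ⟨x, hx⟩ = 1 := by
          rw [hEE ⟨x, hx⟩, ← hE]
          constructor
          · intro h0; exact Subtype.ext h0
          · intro h0; rw [h0]; rfl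
        rw [h2, h1]
        refine exists_congr fun n => ?_
        show x = n * (2 * Real.pi * Complex.I) ↔ _
        rw [show (n : ℂ) * (2 * Real.pi * Complex.I) = 2 * (Real.pi : ℝ) * Complex.I * n by ring]
      p_mem := hpK
      p_pos := Real.pi_pos }
  -- logarithms are in the base
  have hinj : ∀ x : K, lam x = 0 → x = 0 := by
    intro x hx
    obtain ⟨τ, h1, h2⟩ := hP0 _ hB.kap
    have h3 : E x = 1 := by
      apply Subtype.ext
      rw [hE, hx, Complex.exp_zero]; rfl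
    obtain ⟨n, hn⟩ := (hker x).1 h3
    have h4 : x = n • τ := by
      apply Subtype.ext
      rw [hn]
      show _ = ((n • τ : K) : ℂ)
      have h1' : (τ : ℂ) = 2 * Real.pi * Complex.I := h1
      push_cast
      rw [zsmul_eq_mul, h1']
    rw [h4, map_zsmul] at hx
    rcases smul_eq_zero.1 hx with h | h
    · rw [h4, h, zero_smul]
    · exfalso
      rw [h2] at h
      exact Complex.two_pi_I_ne_zero h
  have hmem : ∀ x : K, Complex.exp (lam x) ∈ M.closure ∅ → ((x : ℂ), lam x) ∈ P0 := by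
    intro x hx
    obtain ⟨y, hy⟩ := hB.all _ hx
    obtain ⟨v, h1, h2⟩ := hP0 _ hy
    have h1' : (v : ℂ) = y := h1
    have h2' : lam v = lam x := h2
    have h3 : v = x := sub_eq_zero.1 (hinj _ (by rw [map_sub, h2', sub_self]))
    rw [← h3, h1', h2']
    exact hy
  have hlog : ∀ u : ℂ, Pool.Agent.Helper56.NL.IsLog F u → ∃ x : K, (x : ℂ) = u ∧ (u, lam x) ∈ P0 := by
    intro u hu
    refine ⟨⟨u, hu.1⟩, rfl, ?_⟩
    apply hmem ⟨u, hu.1⟩
    rw [← hEE]
    exact mem_cl_empty.2 hu.2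
  have hlog' : ∀ q ∈ P0, Pool.Agent.Helper56.NL.IsLog F q.1 := by
    intro q hq
    obtain ⟨x, h1, h2⟩ := hP0 q hq
    refine ⟨h1 ▸ x.2, ?_⟩
    show IsAlgebraic ℚ (EE q.1)
    rw [← h1, hEE, h2]
    exact mem_cl_empty.1 (hB.alg q hq)
  refine ⟨F, rfl, ?_, ?_, ?_, fun n k => ⟨?_, ?_⟩⟩
  · -- Lindemann-Weierstrass
    intro n α hα hi
    have hm : ∀ i, α i ∈ K := fun i => hKk _ (mem_cl_empty.2 (hα i))
    let α' : Fin n → K := fun i => ⟨α i, hm i⟩
    have h1 : LinearIndependent ℚ α' := by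
      have h1 : α = K.val.toLinearMap ∘ α' := rfl
      rw [h1] at hi
      exact hi.of_comp _
    have h3 := hLWS hIND hSCHX K lam S P0 hB.fst hrk n α' (fun i => mem_cl_empty.2 (hα i)) h1
    have h4 : (fun i => F.E (α i)) = fun i => Complex.exp (lam (α' i)) := by
      funext i; exact hEE (α' i)
    rw [h4]
    exact h3
  · -- independence in degree `D`
    intro n u hu hi f h1 h2 h3
    refine hB.deg n u (fun i => ?_) hi f h1 h2 h3
    obtain ⟨x, -, h4⟩ := hlog _ (hu i)
    exact ⟨_, h4⟩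
  · -- Schanuel modulo logarithms
    intro n z hz hi
    let z' : Fin n → K := fun i => ⟨z i, hz i⟩
    obtain ⟨f, hf1, hf2⟩ := hSCHX hIND K lam S P0 hrk n z' (by
      intro q hq
      apply hi q
      have h1 := hlog' _ hq
      have h2 : (gr lam (∑ i, q i • z' i)).1 = ∑ i, (q i : ℂ) * z i := by
        show ((∑ i, q i • z' i : K) : ℂ) = _
        rw [AddSubmonoidClass.coe_finsetSum]
        refine Finset.sum_congr rfl fun i _ => ?_
        show ((q i • z' i : K) : ℂ) = _
        rw [← Rat.smul_def]; rfl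
      rwa [h2] at h1)
    refine ⟨f, fun i => ?_, ?_⟩
    · rcases hf1 i with ⟨j, hj⟩ | ⟨j, hj⟩
      · exact Or.inl ⟨j, hj⟩
      · refine Or.inr ⟨j, ?_⟩
        rw [← hj]
        exact hEE (z' j)
    · have hle : IntermediateField.adjoin ℚ {u : ℂ | Pool.Agent.Helper56.NL.IsLog F u} ≤ clF S := by
        rw [IntermediateField.adjoin_le_iff]
        intro u hu
        obtain ⟨x, -, h4⟩ := hlog u hu
        exact mem_cl.1 (hB.st.fst_mem _ h4)
      exact restrict hle hf2
  · -- the instances which fail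
    intro hS
    obtain ⟨U, hU, hfU, hdU, hrU⟩ := hB.up n
    let b := (finBasisOfFinrankEq ℚ U hdU)
    have hbm : ∀ i, ((b i : ℂ × ℂ)) ∈ P0 := fun i => hU (b i).2
    have h1 : LinearIndependent ℚ (fun i => (b i : ℂ × ℂ)) :=
      b.linearIndependent.map' U.subtype (Submodule.ker_subtype U)
    have hli : LinearIndependent ℚ fun i => (b i : ℂ × ℂ).1 := by
      rw [Fintype.linearIndependent_iff] at h1 ⊢
      intro g hg i
      refine h1 g ?_ i
      apply hB.st.inj1 _ (Submodule.sum_mem _ fun i _ => Submodule.smul_mem _ _ (hbm i))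
      rw [Prod.fst_sum]
      exact hg
    have h2 := hS (fun i => (b i : ℂ × ℂ).1) (fun i => hlog' _ (hbm i)) hli
    have h3 : M.eRk (range fun i => (b i : ℂ × ℂ).1) ≤ (r n : ℕ) :=
      (M.eRk_mono (by rintro _ ⟨i, rfl⟩; exact ⟨_, (b i).2, rfl⟩)).trans hrU
    have h4 : (n : ℕ∞) ≤ (r n : ℕ∞) + (k : ℕ∞) := h2.trans (by gcongr)
    have h5 : n ≤ r n + k := by exact_mod_cast h4
    omega
  · -- the instances which hold
    intro hk u hu hi
    choose x hx1 hx2 using fun i => hlog _ (hu i)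
    set U : Submodule ℚ (ℂ × ℂ) := span ℚ (range fun i => (u i, lam (x i))) with hUd
    have hU : U ≤ P0 := span_le.2 (by rintro _ ⟨i, rfl⟩; exact hx2 i)
    have hfU : FiniteDimensional ℚ U := FiniteDimensional.span_of_finite ℚ (finite_range _)
    have hli : LinearIndependent ℚ fun i => (u i, lam (x i)) := by
      have h1 : u = (LinearMap.fst ℚ ℂ ℂ) ∘ fun i => (u i, lam (x i)) := rfl
      rw [h1] at hi
      exact hi.of_comp _
    have hdU : finrank ℚ U = n := by
      rw [hUd, finrank_span_eq_card hli, Fintype.card_fin]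
    have h1 := hB.low U hU hfU
    rw [hdU] at h1
    have h2 : M.eRk (Prod.fst '' (U : Set (ℂ × ℂ))) ≤ M.eRk (range u) := by
      rw [← M.eRk_closure_eq (range u)]
      apply M.eRk_mono
      rintro _ ⟨q, hq, rfl⟩
      induction hq using Submodule.span_induction with
      | mem v hv => obtain ⟨i, rfl⟩ := hv; exact cl_self ⟨i, rfl⟩
      | zero => exact cl_zero _
      | add v w _ _ hv hw => exact cl_add hv hw
      | smul c v _ hv => exact cl_smul c hv
    have h3 : (n : ℕ∞) ≤ (r n : ℕ∞) + (k : ℕ∞) := by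
      have := hrn n
      exact_mod_cast (by omega : n ≤ r n + k)
    exact h3.trans (by gcongr; exact h1.trans h2)

end Pool.Agent.Helper35.IL
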