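import Pool.Agent.Helper35.IL.Fld
import Pool.Agent.Helper78.AL.RkHS
import Pool.Agent.Helper78.AL.RkT
import Pool.Agent.Helper31.HS.FREE

/-! The models, the shape and the implications. -/

set_option autoImplicit false

namespace Pool.Agent.Helper35.IL

open Pool.Agent.Helper35.EM Pool.Agent.Helper56.SA Pool.Agent.Helper56.EM Pool.Agent.Helper56.NL
  Pool.Agent.Helper56.HS Module Submodule Set ComplexConjugate

theorem rkt : S_RKT := by
  intro r hr e he he0 s hs ε hε N U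
  exact Pool.Agent.Helper78.AL.rkT Pool.Agent.Helper78.AL.ec_aux r e ε (fun i => by
      rcases hε i with h | h
      · rw [h]; exact isAlgebraic_one
      · rw [h]; exact mem_cl_empty.1 (cl_I ∅)) (fun i => by
      rcases hε i with h | h
      · rw [h]; exact one_ne_zero
      · rw [h]; exact Complex.I_ne_zero) hr.zero (fun d => ⟨hr.mono d, hr.step d⟩) he he0
    (fun k => (s k : ℂ)) (fun n h => hs.free n (Pool.Agent.Helper35.EM.mem_cl.2 h)) N U

/-- two free sequences; the first one begins with `π` -/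
theorem free' : ∃ s t : ℕ → ℝ, FreeR (fun k => (s k : ℂ)) ∧
    FreeS (range fun k => (s k : ℂ)) (fun k => (t k : ℂ)) ∧ s 0 = Real.pi := by
  obtain ⟨u, hu, h0, -⟩ := Pool.Agent.Helper82.NL.exists_freeR_pi 1 one_pos
  refine ⟨fun k => u (2 * k), fun k => u (2 * k + 1), ⟨?_, ?_⟩, ⟨?_, ?_, ?_, ?_⟩, h0⟩
  · intro n h
    apply hu.free (2 * n)
    refine M.closure_subset_closure ?_ h
    rintro _ ⟨k, hk, rfl⟩
    refine ⟨2 * k, ?_, rfl⟩
    simp only [mem_Iio] at hk ⊢
    omega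
  · intro n
    exact hu.pos (2 * n)
  · intro n h
    apply Pool.Agent.Helper31.HS.free_all hu.free (n := 2 * n + 1) (A := {m | m ≠ 2 * n + 1})
      (by simp)
    refine M.closure_subset_closure ?_ h
    rintro _ (⟨k, rfl⟩ | ⟨k, hk, rfl⟩)
    · exact ⟨2 * k, by simp only [mem_ofPred_eq]; omega, rfl⟩
    · refine ⟨2 * k + 1, ?_, rfl⟩
      simp only [mem_Iio, mem_ofPred_eq] at hk ⊢
      omega
  · intro n
    exact hu.pos (2 * n + 1)
  · rintro _ ⟨k, rfl⟩
    exact (hu.pos (2 * k)).conj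
  · exact countable_range _

/-- the models -/
theorem models (hIND : S_IND) (hSCHX : S_SCHX) (hLWS : S_LWS) (hDG : S_DG) (hDEG : S_DEG)
    (hENU : S_ENU) (hBAS : S_BAS) {D : ℕ} (hD : 1 ≤ D) {r : ℕ → ℕ} (hr : RF r) :
    ∃ F : Pool.Agent.Helper56.NL.ExpField, F.p = Real.pi ∧
      Pool.Agent.Helper56.NL.LindemannWeierstrass F ∧ IndependentInDegree F D ∧
      SchanuelModuloLogs F ∧ ∀ n k, SL F n k ↔ n - r n ≤ k := by
  have hrn : ∀ n, r n ≤ n := by
    intro n
    induction n with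
    | zero => rw [hr.zero]
    | succ n ih => have := hr.step n; omega
  obtain ⟨s, t, hs, ht, h0⟩ := free'
  obtain ⟨P0, hB⟩ := hBAS rkt hDG hDEG hENU D hD r hr s hs h0
  set S : Set ℂ := range fun k => (s k : ℂ) with hS
  have hF0 : FF S (fun k => (t k : ℂ)) 0 = S := by
    rw [FF]
    have : (Iio 0 : Set ℕ) = ∅ := by
      ext x; simp
    rw [this, image_empty, union_empty]
  have hE1 : ExtS S (fun k => (t k : ℂ)) P0 P0 P0 0 :=
    ⟨le_rfl, by rw [hF0]; exact hB.st, IneqS.refl S P0, hB.cs⟩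
  obtain ⟨E, lam, hE, hsurj, hker, hP, hrk, hconj⟩ := extS ht hE1
    (2 * (Real.pi : ℂ) * Complex.I) hB.kap
  have hreal : ∀ y ∈ S ∪ range (fun k => (t k : ℂ)), conj y = y := by
    rintro y (hy | ⟨n, rfl⟩)
    · exact ht.real y hy
    · exact Complex.conj_ofReal _
  exact field hIND hSCHX hLWS hrn hB
    (fun z hz => cl_idem hz) (fun z hz => mem_cl.1 (cl_empty_le hz))
    (fun x hx => mem_cl.1 (Pool.Agent.Helper35.EM.conj_mem hreal (mem_cl.2 hx)))
    (mem_cl.1 (cl_self (Or.inl ⟨0, by simp only [h0]⟩))) E lam hE hsurj hker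
    hP hrk hconj

theorem Adm.mono {δ : ℕ → ℕ} (h : Adm δ) : Monotone δ := monotone_nat_of_le_succ fun n => (h.2.2 n).1

theorem Adm.add {δ : ℕ → ℕ} (h : Adm δ) (n e : ℕ) : δ (n + e) ≤ δ n + e := by
  induction e with
  | zero => simp
  | succ e ih => have := (h.2.2 (n + e)).2; rw [← add_assoc]; omega

theorem Adm.lt {δ : ℕ → ℕ} (h : Adm δ) (n : ℕ) (hn : 1 ≤ n) : δ n + 1 ≤ n := by
  obtain ⟨e, rfl⟩ := Nat.exists_eq_add_of_le hn
  have := h.add 1 e
  rw [h.2.1] at this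
  omega

theorem shape (hTRS : S_TRS) (hSH : S_SH) (F : Pool.Agent.Helper56.NL.ExpField)
    (hLW : Pool.Agent.Helper56.NL.LindemannWeierstrass F) :
    ∃ δ : ℕ → ℕ, Adm δ ∧ ∀ n k, LogInst F n k ↔ δ n ≤ k := by
  classical
  have hex : ∀ n, ∃ k, SL F n k := fun n => ⟨n, fun z _ _ => le_add_self⟩
  have hup : ∀ n k, SL F n k → ∀ k', k ≤ k' → SL F n k' := by
    intro n k h k' hk
    obtain ⟨e, rfl⟩ := Nat.exists_eq_add_of_le hk
    clear hk
    induction e with
    | zero => exact h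
    | succ e ih => exact (hSH F n (k + e)).1 ih
  have hiff : ∀ n k, SL F n k ↔ Nat.find (hex n) ≤ k := fun n k =>
    ⟨fun h => Nat.find_min' _ h, fun h => hup n _ (Nat.find_spec (hex n)) k h⟩
  refine ⟨fun n => Nat.find (hex n), ⟨?_, ?_, fun n => ⟨?_, ?_⟩⟩, fun n k => ?_⟩
  · exact Nat.le_zero.1 ((hiff 0 0).1 fun z _ _ => by simp)
  · exact Nat.le_zero.1 ((hiff 1 0).1 ((hSH F 0 0).2.2.2 hLW))
  · exact (hiff _ _).1 ((hSH F n _).2.1 (Nat.find_spec (hex (n + 1))))
  · exact (hiff _ _).1 ((hSH F n _).2.2.1 (Nat.find_spec (hex n)))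
  · rw [hTRS, hiff]

theorem implies (hTRS : S_TRS) (hSH : S_SH) {T : Set (ℕ × ℕ)} {n k : ℕ}
    (h : n ≤ k + 1 ∨ ∃ s ∈ T, s.2 ≤ k ∧ n + s.2 ≤ s.1 + k) {F : Pool.Agent.Helper56.NL.ExpField}
    (hLW : Pool.Agent.Helper56.NL.LindemannWeierstrass F) (hT : ∀ s ∈ T, LogInst F s.1 s.2) :
    LogInst F n k := by
  obtain ⟨δ, hδ, hS⟩ := shape hTRS hSH F hLW
  rw [hS]
  rcases h with h | ⟨s, hs, h1, h2⟩
  · rcases Nat.eq_zero_or_pos n with rfl | hn
    · rw [hδ.1]; exact Nat.zero_le _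
    · have := hδ.lt n hn; omega
  · have h3 := (hS s.1 s.2).1 (hT s hs)
    rcases le_total n s.1 with h4 | h4
    · exact (hδ.mono h4).trans (h3.trans h1)
    · obtain ⟨e, rfl⟩ := Nat.exists_eq_add_of_le h4
      have := hδ.add s.1 e
      omega

theorem not_implies {Q : Pool.Agent.Helper56.NL.ExpField → Prop}
    (hcls : ∀ d, Adm d → ∃ F, Q F ∧ ∀ n k, LogInst F n k ↔ d n ≤ k)
    {T : Set (ℕ × ℕ)} {n k : ℕ}
    (h : ∀ F, Q F → (∀ s ∈ T, LogInst F s.1 s.2) → LogInst F n k) :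
    n ≤ k + 1 ∨ ∃ s ∈ T, s.2 ≤ k ∧ n + s.2 ≤ s.1 + k := by
  by_contra hcon
  push Not at hcon
  obtain ⟨hnk, hT⟩ := hcon
  set δ : ℕ → ℕ := fun d => min d n - (n - k - 1) with hδd
  have hδ : Adm δ := by
    refine ⟨?_, ?_, fun d => ⟨?_, ?_⟩⟩
    · simp [hδd]
    · show min 1 n - (n - k - 1) = 0
      omega
    · show min d n - (n - k - 1) ≤ min (d + 1) n - (n - k - 1)
      omega
    · show min (d + 1) n - (n - k - 1) ≤ min d n - (n - k - 1) + 1
      omega
  obtain ⟨F, h1, h3⟩ := hcls δ hδ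
  have h4 : LogInst F n k := h F h1 fun s hs => by
    rw [h3]
    have h5 := hT s hs
    show min s.1 n - (n - k - 1) ≤ s.2
    by_cases h6 : s.2 ≤ k
    · have := h5 h6; omega
    · omega
  rw [h3] at h4
  have h5 : min n n - (n - k - 1) ≤ k := h4
  rw [min_self] at h5
  omega

/-- all admissible functions occur -/
theorem realize (hIND : S_IND) (hSCHX : S_SCHX) (hLWS : S_LWS) (hDG : S_DG) (hDEG : S_DEG)
    (hENU : S_ENU) (hBAS : S_BAS) (hTRS : S_TRS) {D : ℕ} (hD : 1 ≤ D) {d : ℕ → ℕ} (h : Adm d) :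
    ∃ F : Pool.Agent.Helper56.NL.ExpField, F.p = Real.pi ∧
      Pool.Agent.Helper56.NL.LindemannWeierstrass F ∧ IndependentInDegree F D ∧
      SchanuelModuloLogs F ∧ ∀ n k, LogInst F n k ↔ d n ≤ k := by
  have hd : ∀ n, d n ≤ n := by
    intro n
    induction n with
    | zero => rw [h.1]
    | succ n ih => have := (h.2.2 n).2; omega
  have hr : RF (fun n => n - d n) := by
    refine ⟨by simp, by simp [h.2.1], fun k => ?_, fun k => ?_⟩
    · have a1 := h.2.2 k
      have a2 := hd k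
      show k - d k ≤ k + 1 - d (k + 1)
      omega
    · have a1 := h.2.2 k
      have a2 := hd k
      show k + 1 - d (k + 1) ≤ k - d k + 1
      omega
  obtain ⟨F, h1, h2, h3, h4, h5⟩ := models hIND hSCHX hLWS hDG hDEG hENU hBAS hD hr
  refine ⟨F, h1, h2, h3, h4, fun n k => ?_⟩
  rw [hTRS, h5]
  have := hd n
  show n - (n - d n) ≤ k ↔ _
  omega

theorem question_iff {F : Pool.Agent.Helper56.NL.ExpField} (hK : F.K = ⊤)
    (hE : F.E = Complex.exp) (hTRS : S_TRS) : Question ↔ ∀ n, LogInst F n 0 := by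
  have hlog : ∀ u, Pool.Agent.Helper56.NL.IsLog F u ↔ IsAlgebraic ℚ (Complex.exp u) := by
    intro u
    unfold Pool.Agent.Helper56.NL.IsLog
    rw [hE]
    exact ⟨fun h => h.2, fun h => ⟨hK ▸ trivial, h⟩⟩
  constructor
  · intro h n
    rw [hTRS]
    intro u hu hi
    have h1 := h n u (fun i => (hlog _).1 (hu i)) hi
    have hI : M.Indep (range u) := (algebraicIndependent_subtype_range h1.injective).2 h1
    rw [hI.eRk_eq_encard, ← image_univ, h1.injective.encard_image, encard_univ]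
    simp
  · intro h n u hu hi
    have h1 := (hTRS F n 0).1 (h n) u (fun i => (hlog _).2 (hu i)) hi
    rw [Nat.cast_zero, add_zero] at h1
    exact algInd_of_rk u h1

end Pool.Agent.Helper35.IL
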