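import Pool.Agent.Helper35.IL.Def
import Pool.Agent.Helper56.HS.Stm

/-! Statements of the packages of project IL (`MP_60829e_nt`). -/

set_option autoImplicit false

namespace Pool.Agent.Helper35.IL

open Pool.Agent.Helper35.EM Pool.Agent.Helper56.SA Pool.Agent.Helper56.EM Pool.Agent.Helper56.NL
  Pool.Agent.Helper56.HS Module Submodule Set ComplexConjugate

/-- the numbers `x i`; `ε i` is `1` or `I` -/
noncomputable def yy (r e : ℕ → ℕ) (s : ℕ → ℝ) (ε : ℕ → ℂ) (i : ℕ) : ℂ :=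
  ε i * ∑ l ∈ Finset.range (r (i + 1)), (s l : ℂ) ^ e i

/-- Package RKT (helper78): rank of the twisted numbers. -/
def S_RKT : Prop := ∀ r : ℕ → ℕ, RF r → ∀ e : ℕ → ℕ, StrictMono e → (∀ i, 0 < e i) →
  ∀ s : ℕ → ℝ, FreeR (fun k => (s k : ℂ)) → ∀ ε : ℕ → ℂ, (∀ i, ε i = 1 ∨ ε i = Complex.I) →
  ∀ (N : ℕ) (U : Submodule ℚ (Fin N → ℚ)), ∃ f : Fin (r (finrank ℚ U)) → (Fin N → ℚ),
    (∀ a, f a ∈ U) ∧ AlgebraicIndependent ℚ fun a => ∑ i, (f a i : ℂ) * yy r e s ε i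

/-- Package DG: independence in degree at most `D`, from `S_DEG`
(`Pool.Agent.Helper76.NL.deg : S_DEG`). The `s l` are algebraically independent over `kk`, so the relation
holds in the polynomial ring; put `s l = 0` for `l ≥ 1` (`r 1 = 1`, so `s 0 ^ e i` stays); the vectors
`fun i => c a i * ε i` are independent over `kk` (rational vectors which are independent over `ℚ` are
independent over `kk`). -/
def S_DG : Prop := S_DEG → ∀ D : ℕ, 1 ≤ D → ∀ r : ℕ → ℕ, RF r →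
  ∀ s : ℕ → ℝ, FreeR (fun k => (s k : ℂ)) → ∀ ε : ℕ → ℂ, (∀ i, ε i = 1 ∨ ε i = Complex.I) →
  ∀ (N n : ℕ) (c : Fin n → (Fin N → ℚ)), LinearIndependent ℚ c →
    ∀ f : MvPolynomial (Fin n) ℂ, (∀ m, IsAlgebraic ℚ (f.coeff m)) → f ≠ 0 → f.totalDegree ≤ D →
      MvPolynomial.eval (fun a => ∑ i, (c a i : ℂ) * yy r (g D) s ε i) f ≠ 0

/-- Package ENU: an enumeration of a rational basis of all logarithms of algebraic numbers by real and
imaginary numbers, which begins with `π i`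
(`Pool.Agent.Helper58.NL.exists_basis`; infinite dimension: `Pool.Agent.Helper35.GL.gb`). -/
def S_ENU : Prop := ∃ w : ℕ → ℂ, w 0 = Real.pi * Complex.I ∧ LinearIndependent ℚ w ∧
  (∀ i, Complex.exp (w i) ∈ M.closure ∅) ∧ (∀ i, conj (w i) = w i ∨ conj (w i) = - w i) ∧
    ∀ z, Complex.exp z ∈ M.closure ∅ → z ∈ span ℚ (range w)

/-- properties of the base -/
structure LB (D : ℕ) (r : ℕ → ℕ) (S : Set ℂ) (P0 : Submodule ℚ (ℂ × ℂ)) : Prop where
  st : SI P0 S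
  cs : CS P0
  kap : (2 * (Real.pi : ℂ) * Complex.I, 2 * (Real.pi : ℂ) * Complex.I) ∈ P0
  alg : ∀ q ∈ P0, Complex.exp q.2 ∈ M.closure ∅
  all : ∀ w : ℂ, Complex.exp w ∈ M.closure ∅ → ∃ x, (x, w) ∈ P0
  fst : ∀ q ∈ P0, q.1 ∈ M.closure ∅ → q = 0
  deg : ∀ (n : ℕ) (u : Fin n → ℂ), (∀ i, ∃ w, (u i, w) ∈ P0) → LinearIndependent ℚ u →
    ∀ f : MvPolynomial (Fin n) ℂ, (∀ m, IsAlgebraic ℚ (f.coeff m)) → f ≠ 0 → f.totalDegree ≤ D →
      MvPolynomial.eval u f ≠ 0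
  low : ∀ U ≤ P0, FiniteDimensional ℚ U →
    ((r (finrank ℚ U) : ℕ) : ℕ∞) ≤ M.eRk (Prod.fst '' (U : Set (ℂ × ℂ)))
  up : ∀ k : ℕ, ∃ U ≤ P0, FiniteDimensional ℚ U ∧ finrank ℚ U = k ∧
    M.eRk (Prod.fst '' (U : Set (ℂ × ℂ))) ≤ (r k : ℕ)

/-- Package BAS: the base: the span of the pairs `(yy r (g D) s ε i, w i)`, where `ε i = 1` if `w i` is
real and `ε i = I` if `w i` is imaginary (so `ε 0 = I`, `yy 0 = π i`; `g D 0 = 1`).
(Model: `Pool/Agent/Helper31/HS/XB.lean`; `g_strictMono` in `Helper58/NL/Base.lean`.) -/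
def S_BAS : Prop := S_RKT → S_DG → S_DEG → S_ENU → ∀ D : ℕ, 1 ≤ D → ∀ r : ℕ → ℕ, RF r →
  ∀ s : ℕ → ℝ, FreeR (fun k => (s k : ℂ)) → s 0 = Real.pi →
    ∃ P0 : Submodule ℚ (ℂ × ℂ), LB D r (range fun k => (s k : ℂ)) P0

/-- Package LWS: Lindemann-Weierstrass and Schanuel modulo `P0` from the rank inequality
(from SCHX; the `f i` are algebraically independent, so none is algebraic, and for the first statement they are
the numbers `exp (lam (α i))` in some order). -/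
def S_LWS : Prop := S_IND → S_SCHX → ∀ (K : IntermediateField ℚ ℂ) (lam : K →ₗ[ℚ] ℂ) (S : Set ℂ)
  (P0 : Submodule ℚ (ℂ × ℂ)), (∀ q ∈ P0, q.1 ∈ M.closure ∅ → q = 0) → Rk lam S P0 →
  ∀ (n : ℕ) (α : Fin n → K), (∀ i, (α i : ℂ) ∈ M.closure ∅) → LinearIndependent ℚ α →
    AlgebraicIndependent ℚ fun i => Complex.exp (lam (α i))

/-- Package SH: the trivial implications between the instances, with `M.eRk` in place of the
transcendence degree (infinitely many independent logarithms in `F`: numbers with `F.E v = p`, `p` prime; the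
unique factorisation, compare `Helper35/GL/GB.lean`). -/
def SL (F : Pool.Agent.Helper56.NL.ExpField) (n k : ℕ) : Prop :=
  ∀ u : Fin n → ℂ, (∀ i, Pool.Agent.Helper56.NL.IsLog F (u i)) → LinearIndependent ℚ u →
    (n : ℕ∞) ≤ M.eRk (range u) + (k : ℕ∞)

def S_SH : Prop := ∀ (F : Pool.Agent.Helper56.NL.ExpField) (n k : ℕ), (SL F n k → SL F n (k + 1)) ∧
  (SL F (n + 1) k → SL F n k) ∧ (SL F n k → SL F (n + 1) (k + 1)) ∧
    (Pool.Agent.Helper56.NL.LindemannWeierstrass F → SL F (n + 1) n)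

/-- Package TRS: `LogInst` is `SL` (from `S_TRD`, `Pool.Agent.Helper63.HS.trd`). -/
def S_TRS : Prop := ∀ (F : Pool.Agent.Helper56.NL.ExpField) (n k : ℕ), LogInst F n k ↔ SL F n k

end Pool.Agent.Helper35.IL
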